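import Pool.Agent.X119.CD.Stm

namespace Pool.Agent.X49.CD

open Polynomial

theorem t_SV : Pool.Agent.X119.CD.S_SV := by
  intro P g hg h
  induction' hn : P.support.card using Nat.strong_induction_on with n ih generalizing P
  by_cases hP : P = 0
  · subst hP; simp
  rw [signVariations_eq_eraseLead_add_ite hP]
  have h' : ∀ i, 0 ≤ (-1 : ℝ) ^ (g i) * P.eraseLead.coeff i := by
    intro i
    rw [eraseLead_coeff]
    split_ifs
    · simp
    · exact h i
  have hc : P.eraseLead.support.card < n := by
    rw [← hn]; exact eraseLead_support_card_lt hP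
  have ihe := ih _ hc P.eraseLead h' rfl
  have hle : P.eraseLead.natDegree ≤ P.natDegree := eraseLead_natDegree_le_aux
  have hgl : g P.eraseLead.natDegree ≤ g P.natDegree := hg hle
  have hg0 : g 0 ≤ g P.eraseLead.natDegree := hg (Nat.zero_le _)
  split_ifs with hs
  · have hgne : g P.eraseLead.natDegree ≠ g P.natDegree := by
      intro heq
      have h1 := h P.natDegree
      have h2 := h' P.eraseLead.natDegree
      rw [heq] at h2
      have hl1 : P.coeff P.natDegree = P.leadingCoeff := rfl
      have hl2 : P.eraseLead.coeff P.eraseLead.natDegree = P.eraseLead.leadingCoeff := rfl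
      rw [hl1] at h1
      rw [hl2] at h2
      have hne : P.leadingCoeff ≠ 0 := leadingCoeff_ne_zero.mpr hP
      rcases lt_or_gt_of_ne hne with hneg | hpos
      · rw [sign_neg hneg] at hs
        have hs2 : SignType.sign P.eraseLead.leadingCoeff = 1 := by
          rw [← neg_neg (SignType.sign P.eraseLead.leadingCoeff), ← hs]; rfl
        have hpos2 : 0 < P.eraseLead.leadingCoeff := sign_eq_one_iff.mp hs2
        rcases Nat.even_or_odd (g P.natDegree) with he | ho
        · rw [he.neg_one_pow] at h1; linarith
        · rw [ho.neg_one_pow] at h2; linarith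
      · rw [sign_pos hpos] at hs
        have hs2 : SignType.sign P.eraseLead.leadingCoeff = -1 := by
          rw [← neg_neg (SignType.sign P.eraseLead.leadingCoeff), ← hs]
        have hneg2 : P.eraseLead.leadingCoeff < 0 := sign_eq_neg_one_iff.mp hs2
        rcases Nat.even_or_odd (g P.natDegree) with he | ho
        · rw [he.neg_one_pow] at h2; linarith
        · rw [ho.neg_one_pow] at h1; linarith
    omega
  · omega

end Pool.Agent.X49.CD
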